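import Pool.Agent.V11325.CaNec

/-!
# Deterministic NEC-voting has an attractor outside the bunches of all zeroes and all ones
-/

namespace Pool.Agent.Results.MP_484523_pr.OtherAttractor

open Pool.Agent.V11325.Nec Pool.Agent.V11325.CaAttr

/-- **The answer to Q1 is yes.** There is an attractor of deterministic NEC-voting with infinitely
many ones and infinitely many zeroes; moreover along its trajectory every site takes both values
at arbitrarily large times. -/
theorem result : ∃ y : ℤ × ℤ → Bool, IsAttractor y ∧
    {s | y s = true}.Infinite ∧ {s | y s = false}.Infinite ∧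
    ∀ (s : ℤ × ℤ) (a : Bool) (n₀ : ℕ), ∃ n, n₀ ≤ n ∧ TR y s n = a :=
  ⟨shell (fun L => 4 * L + 1),
    fun _ hy' => claimC local_step erodes_false erodes_true hy',
    shell_infinite _ true, shell_infinite _ false,
    fun s a n₀ => claimD local_step erodes_false erodes_true s a n₀⟩

end Pool.Agent.Results.MP_484523_pr.OtherAttractor
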